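import Pool.Agent.Helper985.SE.Fin3

set_option autoImplicit false

open Pool.Agent.Helper985.SE

namespace Pool.Agent.Results.MP_7d06de_mp.SelfEnergyOrder

/-- The lower bound of order `Λ^(12/7)` for the self-energy of the non-relativistic electron, with
the full interaction `½ (p + √α A(x))²`: there is a universal constant `c > 0` such that for every
coupling `α > 0` and all large cutoffs `Λ`, in every box of side `L ≥ π (α Λ⁶)^(-1/7)` and for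
every choice of polarisation vectors, `E₀ ≥ c α^(2/7) Λ^(12/7)`. -/
theorem result : ∃ c : ℝ, 0 < c ∧ ∀ α : ℝ, 0 < α → ∃ Λ₀ : ℝ, 0 < Λ₀ ∧ ∀ Λ L : ℝ, Λ₀ ≤ Λ →
    Real.pi * (α * Λ ^ 6) ^ (-(1 / 7) : ℝ) ≤ L →
      (∃ pol : Mode L Λ → E3, IsPolarisation pol) ∧
      ∀ pol : Mode L Λ → E3, IsPolarisation pol →
        c * (α ^ (2 / 7 : ℝ) * Λ ^ (12 / 7 : ℝ)) ≤ groundEnergy α L Λ pol := by
  have hpi := Real.pi_pos
  have hc1 := c1_pos
  refine ⟨min (1 / (512 * Real.pi ^ 2)) (c1 ^ 2 / (4 * Real.pi ^ 3) / 32),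
    lt_min (by positivity) (by positivity), ?_⟩
  intro α hα
  set C0 : ℝ := 4 * Real.pi ^ 2 / c1 with hC0
  have hC0pos : 0 < C0 := by rw [hC0]; positivity
  refine ⟨α * (8 ^ 7 + (4 * C0 / α) ^ (7 / 2 : ℝ)), by positivity, ?_⟩
  intro Λ L hΛ₀ hL₀
  have hΛ : 0 < Λ := lt_of_lt_of_le (by positivity) hΛ₀
  have hL : 0 < L := lt_of_lt_of_le (by positivity) hL₀
  refine ⟨exists_polarisation L Λ, ?_⟩
  intro pol hp
  have : Finite (Momentum L Λ) := momentum_finite hL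
  let _ : Fintype (Momentum L Λ) := Fintype.ofFinite _
  -- the scale
  set r : ℝ := Λ / α with hr
  have hrpos : 0 < r := by positivity
  have hr1 : 8 ^ 7 + (4 * C0 / α) ^ (7 / 2 : ℝ) ≤ r := by
    rw [hr, le_div_iff₀ hα]
    linarith
  have hp1 : 0 < (4 * C0 / α) ^ (7 / 2 : ℝ) := by positivity
  set lam : ℝ := r ^ (1 / 7 : ℝ) with hlam
  have hlampos : 0 < lam := by positivity
  have hlam7 : lam ^ 7 = r := by
    rw [hlam, ← Real.rpow_natCast, ← Real.rpow_mul hrpos.le]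
    norm_num
  have hlam8 : 8 ≤ lam := by
    have h1 : (8 : ℝ) ^ 7 ≤ lam ^ 7 := by rw [hlam7]; linarith
    exact (pow_le_pow_iff_left₀ (by norm_num) hlampos.le (by norm_num)).mp h1
  have hlam2 : 4 * C0 / α ≤ lam ^ 2 := by
    have h1 : (4 * C0 / α) ^ (7 / 2 : ℝ) ≤ r := by linarith [pow_pos (show (0 : ℝ) < 8 by norm_num) 7]
    have h2 : ((4 * C0 / α) ^ (7 / 2 : ℝ)) ^ (2 / 7 : ℝ) ≤ r ^ (2 / 7 : ℝ) :=
      Real.rpow_le_rpow hp1.le h1 (by norm_num)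
    rw [← Real.rpow_mul (by positivity)] at h2
    have h3 : r ^ (2 / 7 : ℝ) = lam ^ 2 := by
      rw [hlam, ← Real.rpow_natCast, ← Real.rpow_mul hrpos.le]
      norm_num
    rw [h3] at h2
    norm_num at h2
    exact h2
  set J : ℕ := ⌊lam⌋₊ with hJ
  have hJ1 : (J : ℝ) ≤ lam := Nat.floor_le hlampos.le
  have hJ2 : lam < J + 1 := Nat.lt_floor_add_one _
  have hJ3 : lam / 2 ≤ J := by linarith
  have hJpos' : (0 : ℝ) < J := by linarith
  have hJpos : 0 < J := by exact_mod_cast hJpos'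
  -- the box
  have hbox : Real.pi * lam ≤ L * Λ := by
    have h1 : (α * Λ ^ 6) ^ (-(1 / 7) : ℝ) * Λ = lam := by
      have h2 : ((α * Λ ^ 6) ^ (-(1 / 7) : ℝ) * Λ) ^ 7 = r := by
        rw [mul_pow, ← Real.rpow_natCast, ← Real.rpow_mul (by positivity)]
        norm_num
        rw [Real.rpow_neg_one]
        rw [hr]
        field_simp
      rw [← hlam7] at h2
      exact (pow_left_inj₀ (by positivity) hlampos.le (by norm_num)).mp h2
    calc Real.pi * lam = Real.pi * (α * Λ ^ 6) ^ (-(1 / 7) : ℝ) * Λ := by rw [← h1]; ring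
      _ ≤ L * Λ := mul_le_mul_of_nonneg_right hL₀ hΛ.le
  have hρ : 4 ≤ L * Λ / (2 * Real.pi) := by
    rw [le_div_iff₀ (by positivity)]
    nlinarith
  have hJL : (J : ℝ) ≤ L * Λ / Real.pi := by
    rw [le_div_iff₀ hpi]
    nlinarith
  have hJα : 4 * Real.pi ^ 2 / c1 ≤ (J : ℝ) ^ 2 * α := by
    rw [← hC0]
    have h1 : (lam / 2) ^ 2 ≤ (J : ℝ) ^ 2 := pow_le_pow_left₀ (by positivity) hJ3 2
    have h2 : 4 * C0 ≤ lam ^ 2 * α := by
      rw [div_le_iff₀ hα] at hlam2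
      exact hlam2
    nlinarith
  -- powers
  set X : ℝ := α ^ (2 / 7 : ℝ) * Λ ^ (12 / 7 : ℝ) with hX
  have hXpos : 0 < X := by positivity
  have hΛeq : Λ = α * lam ^ 7 := by rw [hlam7, hr]; field_simp
  have hX7 : X = α ^ 2 * lam ^ 12 := by
    have h1 : X ^ 7 = (α ^ 2 * lam ^ 12) ^ 7 := by
      rw [hX, mul_pow, ← Real.rpow_natCast (α ^ (2 / 7 : ℝ)), ← Real.rpow_mul hα.le,
        ← Real.rpow_natCast (Λ ^ (12 / 7 : ℝ)), ← Real.rpow_mul hΛ.le]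
      have e1 : (2 / 7 : ℝ) * ((7 : ℕ) : ℝ) = ((2 : ℕ) : ℝ) := by norm_num
      have e2 : (12 / 7 : ℝ) * ((7 : ℕ) : ℝ) = ((12 : ℕ) : ℝ) := by norm_num
      rw [e1, e2, Real.rpow_natCast, Real.rpow_natCast, hΛeq]
      ring
    exact (pow_left_inj₀ hXpos.le (by positivity) (by norm_num)).mp h1
  have hX1 : 1 / (512 * Real.pi ^ 2) * X ≤ Λ ^ 2 / (512 * Real.pi ^ 2 * (J : ℝ) ^ 2) := by
    rw [le_div_iff₀ (by positivity), hX7]
    have h1 : (J : ℝ) ^ 2 ≤ lam ^ 2 := pow_le_pow_left₀ hJpos'.le hJ1 2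
    calc 1 / (512 * Real.pi ^ 2) * (α ^ 2 * lam ^ 12) * (512 * Real.pi ^ 2 * (J : ℝ) ^ 2) =
        α ^ 2 * lam ^ 12 * (J : ℝ) ^ 2 := by field_simp
      _ ≤ α ^ 2 * lam ^ 12 * lam ^ 2 := by gcongr
      _ = Λ ^ 2 := by rw [hΛeq]; ring
  have hX2 : c1 ^ 2 / (4 * Real.pi ^ 3) / 32 * X ≤
      c1 ^ 2 / (4 * Real.pi ^ 3) * (J : ℝ) ^ 5 * α * Λ := by
    have h1 : (lam / 2) ^ 5 ≤ (J : ℝ) ^ 5 := pow_le_pow_left₀ (by positivity) hJ3 5
    calc c1 ^ 2 / (4 * Real.pi ^ 3) / 32 * X =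
        c1 ^ 2 / (4 * Real.pi ^ 3) * (lam / 2) ^ 5 * α * (α * lam ^ 7) := by rw [hX7]; ring
      _ ≤ c1 ^ 2 / (4 * Real.pi ^ 3) * (J : ℝ) ^ 5 * α * (α * lam ^ 7) := by gcongr
      _ = _ := by rw [← hΛeq]
  apply le_groundEnergy
  intro Ψ hΨ
  refine le_trans ?_ (scale_bound hα hL hΛ pol hp J hJpos hρ hJL hJα hΨ)
  apply mul_le_mul_of_nonneg_right _ (by positivity)
  apply le_min
  · exact (mul_le_mul_of_nonneg_right (min_le_left _ _) hXpos.le).trans hX1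
  · exact (mul_le_mul_of_nonneg_right (min_le_right _ _) hXpos.le).trans hX2

end Pool.Agent.Results.MP_7d06de_mp.SelfEnergyOrder
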